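import Pool.Agent.H97.PRP.Targets2

/-!
# MP_e37c09_lc, row FSL: local definability of the family `Fs`
-/

set_option autoImplicit false

open Ordinal Cardinal Order Set
open scoped ZFSet

universe u

namespace Pool.Agent.H55.PRP

open _root_.HD HD.PRK HD.PRP

theorem loc_cup (i j k : ℕ) : Loc.{u} (fun v => v i = v j ∪ v k) :=
  Loc.congr (P := fun v => (∀ t ∈ v i, t ∈ v j ∨ t ∈ v k) ∧ v j ⊆ v i ∧ v k ⊆ v i)
    ((Loc.allMem _ ((Loc.mem _ _).or (Loc.mem _ _))).and ((Loc.sub _ _).and (Loc.sub _ _)))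
    fun v => by
      constructor
      · intro h
        rw [h]
        refine ⟨fun t ht => ZFSet.mem_union.1 ht, fun t ht => ZFSet.mem_union.2 (Or.inl ht),
          fun t ht => ZFSet.mem_union.2 (Or.inr ht)⟩
      · rintro ⟨h1, h2, h3⟩
        ext t
        rw [ZFSet.mem_union]
        exact ⟨h1 t, fun h => h.elim (fun h => h2 h) (fun h => h3 h)⟩

/-- the condition on `s`, `G`, `y`, `a` -/
def Cd (s G y a : ZFSet.{u}) : Prop := ∃ w, w = s ∪ y ∧ ZFSet.pair w a ∈ G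

theorem loc_Cd (i j k l : ℕ) : Loc.{u} (fun v => Cd (v i) (v j) (v k) (v l)) := by
  unfold Cd
  refine Loc.ex (R := fun w v => w = v i ∪ v k ∧ ZFSet.pair w (v l) ∈ v j)
    ((loc_cup 0 (i + 1) (k + 1)).and (loc_pmem 0 (l + 1) (j + 1))) ?_
  rintro η _ v hv x ⟨rfl, _⟩
  exact Gd.union (hv i) (hv k)

theorem pf_FSL : T_FSL.{u} := by
  refine Loc.congr (P := fun v => (v 1).IsOrdinal ∧
    (∀ z ∈ v 0, ∃ y, y ⊆ v 1 ∧ ∃ a ∈ v 1, z = ZFSet.pair y a ∧ (∀ b ∈ y, a ∈ b) ∧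
      Cd (v 3) (v 2) y a) ∧
    (∀ y, y ⊆ v 1 → ∀ a ∈ v 1, (∀ b ∈ y, a ∈ b) → Cd (v 3) (v 2) y a →
      ZFSet.pair y a ∈ v 0)) ?_ ?_
  · refine (loc_ord 1).and (Loc.and ?_ ?_)
    · refine Loc.allMem (R := fun z v => ∃ y, y ⊆ v 1 ∧ ∃ a ∈ v 1, z = ZFSet.pair y a ∧
        (∀ b ∈ y, a ∈ b) ∧ Cd (v 3) (v 2) y a) 0 ?_
      refine Loc.exSub (R := fun y v => ∃ a ∈ v 2, v 0 = ZFSet.pair y a ∧
        (∀ b ∈ y, a ∈ b) ∧ Cd (v 4) (v 3) y a) 2 ?_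
      refine Loc.exMem (R := fun a v => v 1 = ZFSet.pair (v 0) a ∧
        (∀ b ∈ v 0, a ∈ b) ∧ Cd (v 5) (v 4) (v 0) a) 3 ?_
      refine (loc_pair 2 1 0).and (Loc.and ?_ (loc_Cd 6 5 1 0))
      exact Loc.allMem (R := fun b v => v 0 ∈ b) 1 (Loc.mem 1 0)
    · refine Loc.allSub (R := fun y v => ∀ a ∈ v 1, (∀ b ∈ y, a ∈ b) →
        Cd (v 3) (v 2) y a → ZFSet.pair y a ∈ v 0) 1 ?_
      refine Loc.allMem (R := fun a v => (∀ b ∈ v 0, a ∈ b) →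
        Cd (v 4) (v 3) (v 0) a → ZFSet.pair (v 0) a ∈ v 1) 2 ?_
      refine Loc.imp ?_ (Loc.imp (loc_Cd 5 4 1 0) (loc_pmem 1 0 2))
      exact Loc.allMem (R := fun b v => v 0 ∈ b) 1 (Loc.mem 1 0)
  · intro v
    refine and_congr_right fun ho => ?_
    have h1 : (v 1).rank.toZFSet = v 1 := ho.toZFSet_rank_eq
    have key : ∀ z : ZFSet.{u}, z ∈ Fs (v 1).rank (v 2) (v 3) ↔ ∃ y, y ⊆ v 1 ∧ ∃ a ∈ v 1,
        z = ZFSet.pair y a ∧ (∀ b ∈ y, a ∈ b) ∧ Cd (v 3) (v 2) y a := by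
      intro z
      unfold Fs Cd
      rw [h1, ZFSet.mem_sep]
      constructor
      · rintro ⟨h1, y, a, rfl, h2, h3⟩
        rw [ZFSet.pair_mem_prod, ZFSet.mem_powerset] at h1
        exact ⟨y, h1.1, a, h1.2, rfl, h2, v 3 ∪ y, rfl, h3⟩
      · rintro ⟨y, h1, a, h2, rfl, h3, w, rfl, h4⟩
        refine ⟨?_, y, a, rfl, h3, h4⟩
        rw [ZFSet.pair_mem_prod, ZFSet.mem_powerset]
        exact ⟨h1, h2⟩
    constructor
    · intro h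
      rw [h]
      refine ⟨fun z hz => (key z).1 hz, fun y hy a ha hb hc => ?_⟩
      exact (key _).2 ⟨y, hy, a, ha, rfl, hb, hc⟩
    · rintro ⟨h2, h3⟩
      ext z
      rw [key z]
      refine ⟨h2 z, ?_⟩
      rintro ⟨y, hy, a, ha, rfl, hb, hc⟩
      exact h3 y hy a ha hb hc

end Pool.Agent.H55.PRP
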